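import Mathlib

set_option autoImplicit false

open Set Filter Topology Cardinal

namespace Pool.Agent.H903Z.EG

/-! ### Scattered spaces are right-separated -/

section rank
variable {X : Type} [TopologicalSpace X]

noncomputable def Dn (X : Type) [TopologicalSpace X] : Ordinal.{0} → Set X :=
  (wellFounded_lt (α := Ordinal.{0})).fix fun a IH =>
    {x | ∃ U, IsOpen U ∧ x ∈ U ∧ ∀ y ∈ U, y = x ∨ ∃ b, ∃ h : b < a, y ∈ IH b h}

lemma mem_Dn (a : Ordinal.{0}) (x : X) :
    x ∈ Dn X a ↔ ∃ U, IsOpen U ∧ x ∈ U ∧ ∀ y ∈ U, y = x ∨ ∃ b, ∃ _ : b < a, y ∈ Dn X b := by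
  unfold Dn
  rw [WellFounded.fix_eq]
  rfl

lemma exists_rank (h : ∀ S : Set X, S.Nonempty → ∃ x ∈ S, ∃ U : Set X, IsOpen U ∧ U ∩ S = {x}) :
    ∃ r : X → Ordinal.{0}, ∀ x, ∃ U, IsOpen U ∧ x ∈ U ∧ ∀ y ∈ U, y = x ∨ r y < r x := by
  classical
  have hall : ∀ x : X, ∃ a, x ∈ Dn X a := by
    by_contra hcon
    push Not at hcon
    obtain ⟨x, hx, U, hU, hUS⟩ := h {x | ∀ a, x ∉ Dn X a} hcon
    have hy : ∀ y : X, ∃ a : Ordinal.{0}, y ∈ U → y = x ∨ y ∈ Dn X a := by
      intro y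
      by_cases hy : ∀ a, y ∉ Dn X a
      · exact ⟨0, fun hyU => Or.inl (by
          have : y ∈ U ∩ {x | ∀ a, x ∉ Dn X a} := ⟨hyU, hy⟩
          rw [hUS] at this
          exact this)⟩
      · push Not at hy
        obtain ⟨a, ha⟩ := hy
        exact ⟨a, fun _ => Or.inr ha⟩
    choose a ha using hy
    have hxU : x ∈ U := by
      have : x ∈ U ∩ {x | ∀ a, x ∉ Dn X a} := by rw [hUS]; rfl
      exact this.1
    apply hx (⨆ y, a y + 1)
    rw [mem_Dn]
    refine ⟨U, hU, hxU, fun y hyU => (ha y hyU).imp_right fun hy => ⟨a y, ?_, hy⟩⟩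
    exact lt_of_lt_of_le (Order.lt_add_one_iff.2 le_rfl) (Ordinal.le_iSup (fun y => a y + 1) y)
  refine ⟨fun x => sInf {a | x ∈ Dn X a}, fun x => ?_⟩
  obtain ⟨U, hU, hxU, hUy⟩ := (mem_Dn _ x).1 (csInf_mem (hall x))
  refine ⟨U, hU, hxU, fun y hy => (hUy y hy).imp_right ?_⟩
  rintro ⟨b, hb, hyb⟩
  exact lt_of_le_of_lt (csInf_le' hyb) hb

theorem exists_sepOrder
    (h : ∀ S : Set X, S.Nonempty → ∃ x ∈ S, ∃ U : Set X, IsOpen U ∧ U ∩ S = {x}) :
    ∃ (_ : LinearOrder X), WellFoundedLT X ∧ ∀ x : X, Iic x ∈ 𝓝 x := by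
  obtain ⟨r, hr⟩ := exists_rank h
  obtain ⟨lo, wf⟩ := _root_.exists_wellOrder X
  let φ : X → Ordinal.{0} ×ₗ X := fun x => toLex (r x, x)
  have hφ : Function.Injective φ := fun x y hxy => congrArg (fun p => (ofLex p).2) hxy
  have wf' : WellFounded (InvImage (· < ·) φ) := InvImage.wf φ wellFounded_lt
  refine ⟨LinearOrder.lift' φ hφ, ⟨wf'⟩, fun x => ?_⟩
  obtain ⟨U, hU, hxU, hUy⟩ := hr x
  refine mem_of_superset (hU.mem_nhds hxU) fun y hy => ?_
  show φ y ≤ φ x
  rcases hUy y hy with rfl | hlt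
  · exact le_rfl
  · exact (Prod.Lex.toLex_le_toLex.2 (Or.inl hlt))

end rank

/-! ### Closure under countably valued finitary operations -/

section closure
variable {Y : Type}

def iter (g : Finset Y → Set Y) (B : Set Y) : ℕ → Set Y
  | 0 => B
  | n + 1 => iter g B n ∪ ⋃ F : Finset Y, ⋃ _ : (F : Set Y) ⊆ iter g B n, g F

def cl (g : Finset Y → Set Y) (B : Set Y) : Set Y := ⋃ n, iter g B n

lemma iter_mono (g : Finset Y → Set Y) (B : Set Y) : Monotone (iter g B) :=
  monotone_nat_of_le_succ fun _ => subset_union_left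

lemma subset_cl (g : Finset Y → Set Y) (B : Set Y) : B ⊆ cl g B := subset_iUnion (iter g B) 0

lemma finset_subset_iUnion {ι : Type} [LinearOrder ι] (i₀ : ι) {f : ι → Set Y} (hf : Monotone f)
    {S : Set ι} (h₀ : i₀ ∈ S) (F : Finset Y) (hF : (F : Set Y) ⊆ ⋃ i ∈ S, f i) :
    ∃ i ∈ S, (F : Set Y) ⊆ f i := by
  classical
  induction F using Finset.induction_on with
  | empty => exact ⟨i₀, h₀, by simp⟩
  | insert a s _ ih =>
    rw [Finset.coe_insert, insert_subset_iff] at hF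
    obtain ⟨i, hi, his⟩ := ih hF.2
    obtain ⟨j, hj, haj⟩ := mem_iUnion₂.1 hF.1
    refine ⟨max i j, ?_, ?_⟩
    · rcases max_choice i j with h | h <;> rw [h] <;> assumption
    · rw [Finset.coe_insert, insert_subset_iff]
      exact ⟨hf (le_max_right _ _) haj, his.trans (hf (le_max_left _ _))⟩

lemma cl_closed (g : Finset Y → Set Y) (B : Set Y) (F : Finset Y) (hF : (F : Set Y) ⊆ cl g B) :
    g F ⊆ cl g B := by
  obtain ⟨n, -, hn⟩ := finset_subset_iUnion 0 (iter_mono g B) (mem_univ 0) F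
    (by simpa [cl] using hF)
  refine Subset.trans ?_ (subset_iUnion _ (n + 1))
  exact fun x hx => Or.inr (mem_iUnion₂.2 ⟨F, hn, hx⟩)

lemma mk_finsets_le (B : Set Y) : #{F : Finset Y // (F : Set Y) ⊆ B} ≤ max #B ℵ₀ := by
  classical
  have h1 : #{F : Finset Y // (F : Set Y) ⊆ B} ≤ #(Finset B) := by
    refine mk_le_of_surjective (f := fun s : Finset B =>
      (⟨s.map (Function.Embedding.subtype _), fun x hx => ?_⟩ :
        {F : Finset Y // (F : Set Y) ⊆ B})) ?_
    · simp only [Finset.coe_map, mem_image] at hx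
      obtain ⟨y, -, rfl⟩ := hx
      exact y.2
    · rintro ⟨F, hF⟩
      refine ⟨F.subtype _, Subtype.ext ?_⟩
      exact Finset.subtype_map_of_mem fun x hx => hF hx
  refine h1.trans ?_
  rcases finite_or_infinite B with h | h
  · exact le_max_of_le_right mk_le_aleph0
  · rw [mk_finset_of_infinite]
    exact le_max_left _ _

lemma mk_cl_le (g : Finset Y → Set Y) (hg : ∀ F, (g F).Countable) (B : Set Y) {κ : Cardinal}
    (hκ : ℵ₀ ≤ κ) (hB : #B ≤ κ) : #(cl g B) ≤ κ := by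
  have h1 : ∀ n, #(iter g B n) ≤ κ := by
    intro n
    induction n with
    | zero => exact hB
    | succ n ih =>
      refine (mk_union_le _ _).trans (add_le_of_le hκ ih ?_)
      have e : (⋃ F : Finset Y, ⋃ _ : (F : Set Y) ⊆ iter g B n, g F) =
          ⋃ F : {F : Finset Y // (F : Set Y) ⊆ iter g B n}, g F.1 := by
        rw [iUnion_subtype]
      rw [e]
      refine (mk_iUnion_le _).trans (mul_le_of_le hκ ((mk_finsets_le _).trans (max_le ih hκ)) ?_)
      exact ciSup_le' fun F => (le_aleph0_iff_set_countable.2 (hg F.1)).trans hκ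
  refine (mk_iUnion_le _).trans (mul_le_of_le hκ (by simpa using hκ) (ciSup_le' h1))

/-- A chain of small sets, each closed under operations that may depend on the earlier stages. -/
theorem exists_chain {ι : Type} [LinearOrder ι] [WellFoundedLT ι] (e : ι → Y) (B₀ : Set Y)
    (hB₀ : B₀.Countable) (g : Set Y → Finset Y → Set Y) (hg : ∀ B F, (g B F).Countable) :
    ∃ Bp : ι → Set Y, Monotone Bp ∧ (∀ i, e i ∈ Bp i) ∧ (∀ i, B₀ ⊆ Bp i) ∧
      (∀ i (F : Finset Y), (F : Set Y) ⊆ Bp i → g (⋃ j ∈ Iio i, Bp j) F ⊆ Bp i) ∧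
      ∀ i, #(Bp i) ≤ max #(Iic i) ℵ₀ := by
  let Bp : ι → Set Y := (wellFounded_lt (α := ι)).fix fun i IH =>
    cl (g (⋃ j, ⋃ h : j < i, IH j h)) ((⋃ j, ⋃ h : j < i, IH j h) ∪ (B₀ ∪ {e i}))
  have hBp : ∀ i, Bp i = cl (g (⋃ j ∈ Iio i, Bp j)) ((⋃ j ∈ Iio i, Bp j) ∪ (B₀ ∪ {e i})) := by
    intro i
    simp only [Bp]
    rw [WellFounded.fix_eq]
    rfl
  have hsub : ∀ i, (⋃ j ∈ Iio i, Bp j) ∪ (B₀ ∪ {e i}) ⊆ Bp i := by
    intro i
    conv_rhs => rw [hBp i]
    exact subset_cl _ _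
  refine ⟨Bp, ?_, fun i => hsub i (Or.inr (Or.inr rfl)), fun i x hx => hsub i (Or.inr (Or.inl hx)),
    ?_, ?_⟩
  · intro i j hij
    rcases hij.lt_or_eq with h | rfl
    · exact fun x hx => hsub j (Or.inl (mem_iUnion₂.2 ⟨i, h, hx⟩))
    · exact Subset.rfl
  · intro i F hF
    conv_rhs => rw [hBp i]
    rw [hBp i] at hF
    exact cl_closed _ _ F hF
  · intro i
    induction i using WellFoundedLT.induction with
    | ind i ih =>
      rw [hBp i]
      refine mk_cl_le _ (hg _) _ (le_max_right _ _) ?_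
      refine (mk_union_le _ _).trans (add_le_of_le (le_max_right _ _) ?_ ?_)
      · refine (mk_biUnion_le _ _).trans (mul_le_of_le (le_max_right _ _)
          (le_max_of_le_left (mk_le_mk_of_subset Iio_subset_Iic_self)) ?_)
        refine ciSup_le' fun j => (ih j.1 j.2).trans (max_le_max_right _ ?_)
        exact mk_le_mk_of_subset (Iic_subset_Iic.2 (le_of_lt j.2))
      · exact le_max_of_le_right (le_aleph0_iff_set_countable.2 (hB₀.union (countable_singleton _)))

end closure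

/-- Induction on the cardinality of a set. -/
theorem card_induction {X : Type} (P : Set X → Prop) (h0 : ∀ A : Set X, A.Countable → P A)
    (hs : ∀ (ι : Type) [LinearOrder ι] [WellFoundedLT ι] (e : ι → X),
      (∀ (i : ι) (B : Set X), #B ≤ max #(Iic i) ℵ₀ → P B) → P (range e)) (A : Set X) : P A := by
  suffices h : ∀ κ : Cardinal.{0}, ∀ A : Set X, #A = κ → P A from h _ A rfl
  intro κ
  induction κ using WellFoundedLT.induction with
  | ind κ ih =>
    intro A hA
    by_cases hc : A.Countable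
    · exact h0 A hc
    have hκ : ℵ₀ < κ := by
      rw [← hA]
      exact lt_of_not_ge fun h => hc (le_aleph0_iff_set_countable.1 h)
    obtain ⟨φ⟩ : Nonempty (κ.ord.ToType ≃ A) := Cardinal.eq.1 (by rw [mk_ord_toType, hA])
    have hr : A = range fun i => (φ i : X) := by
      ext x
      constructor
      · intro hx
        exact ⟨φ.symm ⟨x, hx⟩, by simp⟩
      · rintro ⟨i, rfl⟩
        exact (φ i).2
    rw [hr]
    refine hs _ _ fun i B hB => ih _ (lt_of_le_of_lt hB (max_lt ?_ hκ)) B rfl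
    rw [← Iio_insert]
    refine lt_of_le_of_lt mk_insert_le ?_
    exact add_lt_of_lt hκ.le (mk_Iio_toType_ord_lt i) (lt_of_lt_of_le one_lt_aleph0 hκ.le)

end Pool.Agent.H903Z.EG
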