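import Mathlib
import Pool.Agent.H903Z.EG.Common

set_option autoImplicit false

open Set Filter Topology Cardinal

namespace Pool.Agent.H903Z.EG

section closed
variable {X : Type} [TopologicalSpace X] [LinearOrder X] {K : Type} [TopologicalSpace K]
  [CompactSpace K] (f : X → K → ℝ)

/-- basic neighbourhoods -/
def Wb {k : ℕ} (t : Fin k → K) (ε : ℝ) (z : X) : Set X := {y | ∀ i, |f y (t i) - f z (t i)| < ε}

lemma Wb_mem (hf : Continuous f) {k : ℕ} (t : Fin k → K) {ε : ℝ} (hε : 0 < ε) (z : X) :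
    Wb f t ε z ∈ 𝓝 z := by
  refine eventually_all.2 fun i => ?_
  have h1 : Continuous fun y => |f y (t i) - f z (t i)| :=
    (((continuous_apply (t i)).comp hf).sub continuous_const).abs
  exact h1.continuousAt.eventually_lt continuousAt_const (by simpa using hε)

lemma exists_Wb (hf : IsInducing f) {z : X} {U : Set X} (hU : U ∈ 𝓝 z) :
    ∃ (k m : ℕ) (t : Fin k → K), Wb f t (1 / (m + 1)) z ⊆ U := by
  rw [hf.nhds_eq_comap, mem_comap] at hU
  obtain ⟨V, hV, hVU⟩ := hU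
  rw [nhds_pi, Filter.mem_pi'] at hV
  obtain ⟨I, s, hs, hI⟩ := hV
  have h1 : ∀ᶠ m : ℕ in atTop, ∀ a ∈ I, Metric.ball (f z a) (1 / (m + 1)) ⊆ s a := by
    rw [Finset.eventually_all]
    intro a _
    obtain ⟨ε, hε, h⟩ := Metric.mem_nhds_iff.1 (hs a)
    filter_upwards [tendsto_one_div_add_atTop_nhds_zero_nat.eventually (Iio_mem_nhds hε)] with m hm
    exact (Metric.ball_subset_ball (le_of_lt hm)).trans h
  obtain ⟨m, hm⟩ := h1.exists
  refine ⟨I.card, m, fun i => I.equivFin.symm i, fun y hy => hVU (hI fun a ha => hm a ha ?_)⟩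
  have := hy (I.equivFin ⟨a, ha⟩)
  simpa [Real.dist_eq] using this

/-- the points with a basic neighbourhood of type `(k, m)` inside their initial segment -/
def Sk (k m : ℕ) : Set X := {z | ∃ t : Fin k → K, Wb f t (1 / (m + 1)) z ⊆ Iic z}

noncomputable def tk {k m : ℕ} (z : Sk f k m) : Fin k → K := z.2.choose

lemma tk_spec {k m : ℕ} (z : Sk f k m) : Wb f (tk f z) (1 / (m + 1)) z.1 ⊆ Iic z.1 :=
  z.2.choose_spec

def Nk (k m : ℕ) (F : Finset X) : Set X :=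
  {z | ∃ h : z ∈ Sk f k m, (F : Set X) ⊆ Wb f (tk f ⟨z, h⟩) (1 / (m + 1) / 4) z}

theorem isClosed_of_closed (hf : IsInducing f) (hc : ∀ x, Continuous (f x))
    (hI : ∀ x : X, Iic x ∈ 𝓝 x) (B : Set X)
    (hB : ∀ (k m : ℕ) (F : Finset X), F.Nonempty → (F : Set X) ⊆ B →
      ∀ z, IsLeast (Nk f k m F) z → z ∈ B) : IsClosed B := by
  classical
  refine isClosed_of_closure_subset fun x hx => ?_
  obtain ⟨k, m, t, ht⟩ := exists_Wb f hf (hI x)
  have hxS : x ∈ Sk f k m := ⟨t, ht⟩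
  set ε : ℝ := 1 / (m + 1) with hεdef
  have hε : 0 < ε := by positivity
  set E := Wb f (tk f ⟨x, hxS⟩) (ε / 4) x ∩ B with hE
  have hxE : x ∈ closure E := by
    rw [mem_closure_iff_nhds] at hx ⊢
    intro U hU
    obtain ⟨y, hy1, hy2⟩ := hx _ (inter_mem hU (Wb_mem f hf.continuous (tk f ⟨x, hxS⟩)
      (show 0 < ε / 4 by positivity) x))
    exact ⟨y, hy1.1, hy1.2, hy2⟩
  obtain ⟨y₀, hy₀⟩ : E.Nonempty := closure_nonempty_iff.1 ⟨x, hxE⟩
  by_contra hxB
  have key : ∀ F : Finset E, ∃ z : Sk f k m, (∀ y ∈ F, y.1 ∈ Wb f (tk f z) (ε / 4) z.1) ∧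
      x ∉ Wb f (tk f z) ε z.1 := by
    intro F
    by_contra hcon
    push Not at hcon
    apply hxB
    have hsub : ((insert y₀ (F.image Subtype.val) : Finset X) : Set X) ⊆ E := by
      intro y hy
      simp only [Finset.coe_insert, Finset.coe_image, mem_insert_iff, mem_image] at hy
      rcases hy with rfl | ⟨y, -, rfl⟩
      · exact hy₀
      · exact y.2
    refine hB k m (insert y₀ (F.image Subtype.val)) (Finset.insert_nonempty _ _)
      (fun y hy => (hsub hy).2) x ⟨⟨hxS, fun y hy => (hsub hy).1⟩, ?_⟩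
    rintro z ⟨hz, hFz⟩
    refine tk_spec f ⟨z, hz⟩ (hcon ⟨z, hz⟩ fun y hy => hFz ?_)
    simp only [Finset.coe_insert, Finset.coe_image, mem_insert_iff, mem_image]
    exact Or.inr ⟨y, hy, rfl⟩
  choose z hz1 hz2 using key
  let 𝒰 : Ultrafilter (Finset E) := Ultrafilter.of atTop
  have h𝒰 : (𝒰 : Filter (Finset E)) ≤ atTop := Ultrafilter.of_le _
  obtain ⟨s, -, hs⟩ := isCompact_univ.ultrafilter_le_nhds (𝒰.map fun F => tk f (z F)) (by simp)
  have hs' : ∀ (y : X) (i : Fin k),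
      Tendsto (fun F => f y (tk f (z F) i)) (𝒰 : Filter (Finset E)) (𝓝 (f y (s i))) :=
    fun y i => ((hc y).tendsto _).comp (((continuous_apply i).tendsto s).comp hs)
  have hev : ∀ y : E, ∀ᶠ F in (𝒰 : Filter (Finset E)), y.1 ∈ Wb f (tk f (z F)) (ε / 4) (z F).1 := by
    intro y
    filter_upwards [h𝒰 (eventually_ge_atTop {y})] with F hF
    exact hz1 F y (hF (Finset.mem_singleton_self y))
  have h1 : ∀ y ∈ E, ∀ i, |f y (s i) - f y₀ (s i)| ≤ ε / 2 := by
    intro y hy i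
    refine le_of_tendsto ((hs' y i).sub (hs' y₀ i)).abs ?_
    filter_upwards [hev ⟨y, hy⟩, hev ⟨y₀, hy₀⟩] with F h1 h2
    have h3 := abs_lt.1 (h1 i)
    have h4 := abs_lt.1 (h2 i)
    rw [abs_le]
    constructor <;> linarith [h3.1, h3.2, h4.1, h4.2]
  have h2 : ∀ i, |f x (s i) - f y₀ (s i)| ≤ ε / 2 := by
    intro i
    have hcl : IsClosed {y | |f y (s i) - f y₀ (s i)| ≤ ε / 2} :=
      isClosed_le (((continuous_apply (s i)).comp hf.continuous).sub continuous_const).abs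
        continuous_const
    exact closure_minimal (fun y hy => h1 y hy i) hcl hxE
  have h3 : ∀ᶠ F in (𝒰 : Filter (Finset E)), ∀ i,
      |f x (tk f (z F) i) - f y₀ (tk f (z F) i)| < 3 * ε / 4 := by
    refine eventually_all.2 fun i => ?_
    exact ((hs' x i).sub (hs' y₀ i)).abs.eventually_lt_const (by linarith [h2 i])
  obtain ⟨F, hF1, hF2⟩ := (h3.and (hev ⟨y₀, hy₀⟩)).exists
  refine hz2 F fun i => ?_
  have h4 := abs_lt.1 (hF1 i)
  have h5 := abs_lt.1 (hF2 i)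
  rw [abs_lt]
  constructor <;> linarith [h4.1, h4.2, h5.1, h5.2]

end closed

lemma exists_strictMono_mem {ι : Type} [LinearOrder ι] [WellFoundedLT ι] (S : ℕ → Set ι)
    (hS : Antitone S) (hinf : ∀ n, (S n).Infinite) :
    ∃ a : ℕ → ι, StrictMono a ∧ ∀ n, a n ∈ S n := by
  have step : ∀ (n : ℕ) (T : Set ι), (S n ∩ T).Finite → (∀ i ∈ T, ∀ j ≤ i, j ∈ T) →
      ∃ i, i ∉ T ∧ i ∈ S n ∧ (S n ∩ Iic i).Finite := by
    intro n T hT _
    obtain ⟨i, hi, hmin⟩ := (wellFounded_lt (α := ι)).has_min (S n \ T)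
      (((hinf n).diff hT).nonempty.mono fun j hj => ⟨hj.1, fun h => hj.2 ⟨hj.1, h⟩⟩)
    refine ⟨i, hi.2, hi.1, (hT.insert i).subset fun j hj => ?_⟩
    by_cases hjT : j ∈ T
    · exact Or.inr ⟨hj.1, hjT⟩
    · exact Or.inl (le_antisymm hj.2 (not_lt.1 (hmin j ⟨hj.1, hjT⟩)))
  have step' : ∀ (n : ℕ) (p : {i // i ∈ S n ∧ (S n ∩ Iic i).Finite}),
      ∃ q : {i // i ∈ S (n + 1) ∧ (S (n + 1) ∩ Iic i).Finite}, p.1 < q.1 := by
    intro n p
    obtain ⟨i, h1, h2⟩ := step (n + 1) (Iic p.1)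
      (p.2.2.subset (inter_subset_inter_left _ (hS (Nat.le_succ n)))) fun i hi j hj => hj.trans hi
    exact ⟨⟨i, h2⟩, not_le.1 h1⟩
  choose g hg using step'
  obtain ⟨i₀, -, h₀⟩ := step 0 ∅ (by simp) (by simp)
  let a : ∀ n, {i // i ∈ S n ∧ (S n ∩ Iic i).Finite} := fun n => Nat.rec ⟨i₀, h₀⟩ g n
  exact ⟨fun n => (a n).1, strictMono_nat_of_lt_succ fun n => hg n (a n), fun n => (a n).2.1⟩

theorem cech {X : Type} [TopologicalSpace X] [LinearOrder X] [WellFoundedLT X]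
    {K : Type} [TopologicalSpace K] [CompactSpace K] (f : X → K → ℝ) (hf : IsInducing f)
    (hc : ∀ x, Continuous (f x)) (hI : ∀ x : X, Iic x ∈ 𝓝 x)
    {Y : Type} [TopologicalSpace Y] [CompactSpace Y] [T2Space Y] (e : X → Y) (he : IsEmbedding e)
    (O : ℕ → Set Y) (hO : ∀ n, IsOpen (O n)) (hOe : range e = ⋂ n, O n) (A : Set X) :
    ∃ c : X → ℕ, ∀ x ∈ A, ∀ᶠ y in 𝓝 x, y ∈ A → c y = c x → y = x := by
  classical
  induction A using card_induction with
  | h0 A hA =>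
    obtain ⟨c, hc⟩ := countable_iff_exists_injOn.1 hA
    exact ⟨c, fun x hx => Eventually.of_forall fun y hy h => hc hy hx h⟩
  | hs ι ε IH =>
  have hC : ∀ (n : ℕ) (x : X) (B : Set X), ∃ C ∈ 𝓝 (e x), IsClosed C ∧ C ⊆ O n ∧
      (x ∉ closure B → ∀ y ∈ B, e y ∉ C) := by
    intro n x B
    have h1 : O n ∈ 𝓝 (e x) := (hO n).mem_nhds (mem_iInter.1 (hOe ▸ mem_range_self x) n)
    by_cases hx : x ∈ closure B
    · obtain ⟨C, h2, h3, h4⟩ := exists_mem_nhds_isClosed_subset h1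
      exact ⟨C, h2, h3, h4, fun h => absurd hx h⟩
    · have h2 : (closure (e '' B))ᶜ ∈ 𝓝 (e x) := by
        refine isClosed_closure.isOpen_compl.mem_nhds fun h => hx ?_
        rw [he.closure_eq_preimage_closure_image]
        exact h
      obtain ⟨C, h2, h3, h4⟩ := exists_mem_nhds_isClosed_subset (inter_mem h1 h2)
      exact ⟨C, h2, h3, fun y hy => (h4 hy).1, fun _ y hy h =>
        (h4 h).2 (subset_closure ⟨y, hy, rfl⟩)⟩
  choose C hC1 hC2 hC3 hC4 using hC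
  let g : Set (X ⊕ Set Y) → Finset (X ⊕ Set Y) → Set (X ⊕ Set Y) := fun B F =>
    (Sum.inl '' ((⋃ k, ⋃ m, {z | IsLeast (Nk f k m F.toLeft) z}) ∪
      {z | IsGreatest {x | ∀ s ∈ F.toRight, e x ∈ s} z})) ∪
    Sum.inr '' (⋃ n, (fun x => C n x (Sum.inl ⁻¹' B)) '' F.toLeft)
  have hg : ∀ B F, (g B F).Countable := by
    intro B F
    refine Countable.union (Countable.image (Countable.union ?_ ?_) _) (Countable.image ?_ _)
    · exact countable_iUnion fun k => countable_iUnion fun m =>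
        Set.Subsingleton.countable fun a ha b hb => ha.unique hb
    · exact Set.Subsingleton.countable fun a ha b hb => ha.unique hb
    · exact countable_iUnion fun n => (Finset.countable_toSet _).image _
  obtain ⟨Bp, hmono, hε, -, hcl, hcard⟩ :=
    exists_chain (fun i => (Sum.inl (ε i) : X ⊕ Set Y)) ∅ countable_empty g hg
  let P : ι → Set X := fun i => Sum.inl ⁻¹' Bp i
  let M : ι → Set X := fun i => Sum.inl ⁻¹' ⋃ j ∈ Iio i, Bp j
  have hMcl : ∀ i, IsClosed (M i) := by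
    intro i
    refine isClosed_of_closed f hf hc hI _ fun k m F hF hFB z hz => ?_
    obtain ⟨y, hy⟩ := hF
    obtain ⟨j₀, hj₀, -⟩ := mem_iUnion₂.1 (hFB hy)
    obtain ⟨j, hj, hFj⟩ := finset_subset_iUnion j₀ hmono hj₀ (F.image Sum.inl) (by
      intro w hw
      simp only [Finset.coe_image, mem_image] at hw
      obtain ⟨x, hx, rfl⟩ := hw
      exact hFB hx)
    refine mem_iUnion₂.2 ⟨j, hj, hcl j _ hFj (Or.inl ⟨z, Or.inl (mem_iUnion₂.2 ⟨k, m, ?_⟩), rfl⟩)⟩
    have : (F.image (Sum.inl : X → X ⊕ Set Y)).toLeft = F := by ext; simp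
    rw [this]
    exact hz
  have hIH : ∀ i, ∃ c : X → ℕ, ∀ x ∈ P i, ∀ᶠ y in 𝓝 x, y ∈ P i → c y = c x → y = x :=
    fun i => IH i _ ((mk_preimage_of_injective _ _ Sum.inl_injective).trans (hcard i))
  choose cc hcc using hIH
  let A' : Set X := {x | ∃ i, x ∈ P i}
  have hα : ∀ x : A', ∃ i, x.1 ∈ P i ∧ x.1 ∉ M i := by
    intro x
    obtain ⟨i, hi, hmin⟩ := (wellFounded_lt (α := ι)).has_min {i | x.1 ∈ P i} x.2
    refine ⟨i, hi, fun h => ?_⟩
    obtain ⟨j, hj, hxj⟩ := mem_iUnion₂.1 h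
    exact hmin j hxj hj
  choose α hαP hαM using hα
  have hle : ∀ (x : A') (i : ι), x.1 ∉ M i → i ≤ α x := fun x i h =>
    not_lt.1 fun hlt => h (mem_iUnion₂.2 ⟨α x, hlt, hαP x⟩)
  let V : ℕ → A' → Set X := fun n x => {y | ∀ j ≤ n, e y ∈ interior (C j x.1 (M (α x)))}
  have hVopen : ∀ n x, IsOpen (V n x) := by
    intro n x
    have : V n x = ⋂ j ∈ Iic n, e ⁻¹' interior (C j x.1 (M (α x))) := by
      ext y; simp [V]
    rw [this]
    exact (finite_Iic n).isOpen_biInter fun j _ => isOpen_interior.preimage he.continuous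
  have hVx : ∀ n x, x.1 ∈ V n x := fun n x j _ => mem_interior_iff_mem_nhds.2 (hC1 _ _ _)
  have hCM : ∀ n (x : A') y, e y ∈ C n x.1 (M (α x)) → y ∉ M (α x) := fun n x y h hy =>
    hC4 n x.1 _ (by rw [(hMcl _).closure_eq]; exact hαM x) y hy h
  have hVM : ∀ n x y, y ∈ V n x → y ∉ M (α x) := fun n x y h =>
    hCM n x y (interior_subset (h n le_rfl))
  let Sl : ℕ → X → Set ι := fun n y => α '' {x | y ∈ V n x}
  have hfin : ∀ y, ∃ n, (Sl n y).Finite := by
    intro y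
    by_contra hcon
    push Not at hcon
    obtain ⟨a, ha, haS⟩ := exists_strictMono_mem (fun n => Sl n y)
      (fun n m hnm => image_mono fun x hx j hj => hx j (hj.trans hnm)) hcon
    choose x hxV hxa using haS
    let T : ℕ → Set Y := fun j => C j (x j).1 (M (α (x j)))
    have hyT : ∀ j, e y ∈ T j := fun j => interior_subset (hxV j j le_rfl)
    have hG : IsCompact (e ⁻¹' ⋂ j, T j) := by
      rw [he.isInducing.isCompact_iff, image_preimage_eq_of_subset]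
      · exact (isClosed_iInter fun j => hC2 _ _ _).isCompact
      · rw [hOe]
        exact iInter_mono fun j => hC3 _ _ _
    obtain ⟨s, hs, hcov⟩ := hG.elim_nhds_subcover (fun z => Iic z) fun z _ => hI z
    have hsne : s.Nonempty := by
      obtain ⟨z, hz, -⟩ := mem_iUnion₂.1 (hcov (show y ∈ _ from mem_iInter.2 hyT))
      exact ⟨z, hz⟩
    let t := s.max' hsne
    have htG : t ∈ e ⁻¹' ⋂ j, T j := hs t (s.max'_mem hsne)
    have hGt : e ⁻¹' (⋂ j, T j) ⊆ Iic t := fun z hz => by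
      obtain ⟨w, hw, hzw⟩ := mem_iUnion₂.1 (hcov hz)
      exact le_trans hzw (s.le_max' w hw)
    have hopen : IsOpen (Iic t) := isOpen_iff_mem_nhds.2 fun z hz =>
      mem_of_superset (hI z) (Iic_subset_Iic.2 hz)
    obtain ⟨Ω, hΩ, hΩt⟩ := he.isInducing.isOpen_iff.1 hopen
    have hsub : Ωᶜ ∩ ⋂ j, T j = ∅ := by
      rw [eq_empty_iff_forall_notMem]
      rintro w ⟨hw1, hw2⟩
      obtain ⟨z, rfl⟩ : w ∈ range e := by
        rw [hOe]
        exact iInter_mono (fun j => hC3 _ _ _) hw2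
      apply hw1
      have := hGt hw2
      rwa [← hΩt] at this
    obtain ⟨J, hJ⟩ := hΩ.isClosed_compl.isCompact.elim_finite_subfamily_closed T
      (fun j => hC2 _ _ _) hsub
    obtain ⟨n, hn⟩ := J.bddAbove
    have hF : ((J.image fun j => (Sum.inr (T j) : X ⊕ Set Y) : Finset _) : Set _) ⊆ Bp (a n) := by
      intro w hw
      simp only [Finset.coe_image, mem_image] at hw
      obtain ⟨j, hj, rfl⟩ := hw
      refine hmono (ha.monotone (hn hj)) ?_
      rw [← hxa j]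
      refine hcl _ {Sum.inl (x j).1} (by rw [Finset.coe_singleton, singleton_subset_iff]; exact hαP (x j))
        (Or.inr ⟨_, mem_iUnion.2 ⟨j, (x j).1, by simp, rfl⟩, rfl⟩)
    have ht : Sum.inl t ∈ Bp (a n) := by
      refine hcl _ _ hF (Or.inl ⟨t, Or.inr ⟨?_, ?_⟩, rfl⟩)
      · intro s hs
        simp only [Finset.mem_toRight, Finset.mem_image, Sum.inr.injEq] at hs
        obtain ⟨j, -, rfl⟩ := hs
        exact mem_iInter.1 htG j
      · intro z hz
        have h1 : e z ∈ ⋂ j ∈ J, T j := mem_iInter₂.2 fun j hj => hz _ (by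
          simp only [Finset.mem_toRight, Finset.mem_image, Sum.inr.injEq]
          exact ⟨j, hj, rfl⟩)
        have h2 : e z ∈ Ω := by
          by_contra h
          exact (eq_empty_iff_forall_notMem.1 hJ) _ ⟨h, h1⟩
        have : z ∈ e ⁻¹' Ω := h2
        rwa [hΩt] at this
    refine hCM (n + 1) (x (n + 1)) t (mem_iInter.1 htG (n + 1)) ?_
    rw [hxa]
    exact mem_iUnion₂.2 ⟨a n, ha (Nat.lt_succ_self n), ht⟩
  choose nn hnn using hfin
  let c : X → ℕ := fun y => Nat.pair (nn y) (Nat.pair (Sl (nn y) y).ncard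
    (if h : y ∈ A' then cc (α ⟨y, h⟩) y else 0))
  have hA' : range ε ⊆ A' := by
    rintro _ ⟨i, rfl⟩
    exact ⟨i, hε i⟩
  refine ⟨c, fun x hx => ?_⟩
  have hxA := hA' hx
  have h1 : ∀ᶠ y in 𝓝 x, ∀ i ∈ Sl (nn x) x, i ∈ Sl (nn x) y := by
    rw [eventually_all_finite (hnn x)]
    rintro _ ⟨w, hw, rfl⟩
    filter_upwards [(hVopen _ w).mem_nhds hw] with y hy
    exact ⟨w, hy, rfl⟩
  filter_upwards [h1, (hVopen 0 ⟨x, hxA⟩).mem_nhds (hVx 0 ⟨x, hxA⟩),
    hcc (α ⟨x, hxA⟩) x (hαP ⟨x, hxA⟩)] with y h1 h2 h3 hy hcy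
  have hyA := hA' hy
  simp only [c, Nat.pair_eq_pair, dif_pos hxA, dif_pos hyA] at hcy
  obtain ⟨e1, e2, e3⟩ := hcy
  have h4 : Sl (nn x) x = Sl (nn x) y := by
    refine eq_of_subset_of_ncard_le h1 ?_ (e1 ▸ hnn y)
    rw [← e2, e1]
  have h5 : α ⟨y, hyA⟩ ≤ α ⟨x, hxA⟩ := by
    obtain ⟨w, hw, hw'⟩ : α ⟨y, hyA⟩ ∈ Sl (nn x) x := by
      rw [h4]
      exact ⟨⟨y, hyA⟩, hVx _ _, rfl⟩
    rw [← hw']
    exact hle ⟨x, hxA⟩ _ (hVM _ _ _ hw)
  have h6 : α ⟨y, hyA⟩ = α ⟨x, hxA⟩ := le_antisymm h5 (hle ⟨y, hyA⟩ _ (hVM _ _ _ h2))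
  rw [h6] at e3
  exact h3 (h6 ▸ hαP ⟨y, hyA⟩) e3

end Pool.Agent.H903Z.EG
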