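import Mathlib

set_option autoImplicit false

open Set Filter Topology Cardinal

namespace Pool.Agent.H903Z.EG

/-- the first uncountable ordinal as a type -/
abbrev Om : Type := (aleph 1).ord.ToType

lemma countable_Iic_Om (a : Om) : (Iic a).Countable := by
  rw [← Iio_insert]
  refine Countable.insert _ ?_
  rw [← le_aleph0_iff_set_countable, ← Order.lt_succ_iff, succ_aleph0]
  exact mk_Iio_toType_ord_lt a

lemma uncountable_Om : ¬ (univ : Set Om).Countable := by
  rw [← le_aleph0_iff_set_countable, mk_univ, mk_ord_toType, not_le]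
  exact aleph0_lt_aleph_one

lemma exists_gt_Om {s : Set Om} (hs : s.Countable) : ∃ b, ∀ a ∈ s, a < b := by
  by_contra h
  push Not at h
  apply uncountable_Om
  refine (hs.biUnion fun a _ => countable_Iic_Om a).mono fun b _ => ?_
  obtain ⟨a, ha, hba⟩ := h b
  exact mem_iUnion₂.2 ⟨a, ha, hba⟩

/-- well-founded countably branching trees with a rank and a label -/
inductive Tr : Type
  | leaf (r l : Om) : Tr
  | node (r l : Om) (ch : ℕ → Tr) : Tr

def Tr.rk : Tr → Om
  | .leaf r _ => r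
  | .node r _ _ => r

def Tr.lab : Tr → Om
  | .leaf _ l => l
  | .node _ l _ => l

/-- the descendants along edges that increase the rank -/
def Tr.A : Tr → Set Tr
  | .leaf r l => {.leaf r l}
  | .node r l ch => insert (.node r l ch) (⋃ n, ⋃ _ : r < (ch n).rk, (ch n).A)

lemma Tr.self_mem : ∀ y : Tr, y ∈ y.A
  | .leaf _ _ => rfl
  | .node _ _ _ => mem_insert _ _

lemma Tr.countable_A : ∀ y : Tr, y.A.Countable
  | .leaf _ _ => countable_singleton _
  | .node _ _ ch => Countable.insert _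
      (countable_iUnion fun n => countable_iUnion fun _ => Tr.countable_A (ch n))

lemma Tr.rk_lt : ∀ (y x : Tr), x ∈ y.A → x = y ∨ y.rk < x.rk
  | .leaf _ _, _, h => Or.inl h
  | .node r l ch, x, h => by
    rcases h with h | h
    · exact Or.inl h
    · obtain ⟨n, hn, hx⟩ := mem_iUnion₂.1 h
      rcases Tr.rk_lt (ch n) x hx with rfl | h'
      · exact Or.inr hn
      · exact Or.inr (lt_trans hn h')

lemma exists_lab {B : Set Tr} (hB : B.Countable) : ∃ l : Om, ∀ x ∈ B, x.lab ≠ l := by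
  obtain ⟨b, hb⟩ := exists_gt_Om (hB.image Tr.lab)
  exact ⟨b, fun x hx => (hb _ ⟨x, hx, rfl⟩).ne⟩

lemma exists_supp {X : Type} (v : Ultrafilter X) :
    ∃ B : Set X, B.Countable ∧ ∀ E : Set X, E.Countable → Disjoint E B → E ∉ v := by
  by_cases h : ∃ B : Set X, B.Countable ∧ B ∈ v
  · obtain ⟨B, hB, hBv⟩ := h
    refine ⟨B, hB, fun E _ hd hE => ?_⟩
    have : E ∩ B ∈ v := inter_mem hE hBv
    rw [hd.inter_eq] at this
    exact Ultrafilter.empty_notMem this
  · exact ⟨∅, countable_empty, fun E hE _ hEv => h ⟨E, hE, hEv⟩⟩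

lemma exists_seq {X : Type} [Nonempty X] (P : ℕ → X → Prop) (r : X → X → Prop) (Q : X → Prop)
    (h : ∀ (n : ℕ) (s : List X), (∀ x ∈ s, Q x) → ∃ y, P n y ∧ Q y ∧ ∀ x ∈ s, r x y) :
    ∃ f : ℕ → X, (∀ n, P n (f n) ∧ Q (f n)) ∧ ∀ m n, m < n → r (f m) (f n) := by
  choose! g hg using h
  let l : ℕ → List X := fun n => Nat.rec [] (fun n l => g n l :: l) n
  have hl : ∀ n, l (n + 1) = g n (l n) :: l n := fun n => rfl
  have hQ : ∀ n, ∀ x ∈ l n, Q x := by
    intro n
    induction n with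
    | zero => intro x hx; exact absurd hx List.not_mem_nil
    | succ n ih =>
      intro x hx
      rw [hl, List.mem_cons] at hx
      rcases hx with rfl | hx
      · exact (hg n _ ih).2.1
      · exact ih x hx
  have hm : ∀ m n, m < n → g m (l m) ∈ l n := by
    intro m n hmn
    induction n with
    | zero => omega
    | succ n ih =>
      rw [hl, List.mem_cons]
      rcases Nat.lt_succ_iff_lt_or_eq.1 hmn with h | rfl
      · exact Or.inr (ih h)
      · exact Or.inl rfl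
  exact ⟨fun n => g n (l n), fun n => ⟨(hg n _ (hQ n)).1, (hg n _ (hQ n)).2.1⟩,
    fun m n hmn => (hg n _ (hQ n)).2.2 _ (hm m n hmn)⟩

section main
variable (c : Tr → ℕ × ℕ) (u : Tr → ℕ → Ultrafilter Tr)

def Big (a : Om) (q : ℕ × ℕ) : Prop :=
  ∀ B : Set Tr, B.Countable → ∃ x : Tr, a < x.rk ∧ c x = q ∧ Disjoint x.A B

lemma exists_big (a : Om) (Q : Set (ℕ × ℕ))
    (h : ∀ B : Set Tr, B.Countable → ∃ x : Tr, a < x.rk ∧ c x ∈ Q ∧ Disjoint x.A B) :
    ∃ q ∈ Q, Big c a q := by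
  by_contra hcon
  push Not at hcon
  have : ∀ q : ℕ × ℕ, ∃ B : Set Tr, B.Countable ∧
      (q ∈ Q → ∀ x : Tr, a < x.rk → c x = q → ¬ Disjoint x.A B) := by
    intro q
    by_cases hq : q ∈ Q
    · have := hcon q hq
      unfold Big at this
      push Not at this
      obtain ⟨B, hB, hB'⟩ := this
      exact ⟨B, hB, fun _ => hB'⟩
    · exact ⟨∅, countable_empty, fun h => absurd h hq⟩
  choose B hB hB' using this
  obtain ⟨x, h1, h2, h3⟩ := h (⋃ q, B q) (countable_iUnion hB)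
  exact hB' _ h2 x h1 rfl (h3.mono_right (subset_iUnion _ _))

lemma Big.mono {a b : Om} (hab : a ≤ b) {q : ℕ × ℕ} (h : Big c b q) : Big c a q := fun B hB => by
  obtain ⟨x, h1, h2⟩ := h B hB
  exact ⟨x, lt_of_le_of_lt hab h1, h2⟩

lemma exists_ultra {a : Om} {q : ℕ × ℕ} (h : Big c a q) : ∃ 𝒰 : Ultrafilter Tr,
    ∀ B : Set Tr, B.Countable → {x : Tr | a < x.rk ∧ c x = q ∧ Disjoint x.A B} ∈ 𝒰 := by
  obtain ⟨𝒰, h𝒰⟩ := Ultrafilter.exists_ultrafilter_of_finite_inter_nonempty
    ((fun B : Set Tr => {x : Tr | a < x.rk ∧ c x = q ∧ Disjoint x.A B}) '' {B | B.Countable}) (by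
      intro T hT
      have : ∀ t : T, ∃ B : Set Tr, B.Countable ∧
          {x : Tr | a < x.rk ∧ c x = q ∧ Disjoint x.A B} = t.1 := fun t => hT t.2
      choose B hB hB' using this
      obtain ⟨x, h1, h2, h3⟩ := h (⋃ t, B t) (countable_iUnion hB)
      refine ⟨x, fun t ht => ?_⟩
      rw [← show _ = t from hB' ⟨t, ht⟩]
      exact ⟨h1, h2, h3.mono_right (subset_iUnion _ _)⟩)
  exact ⟨𝒰, fun B hB => h𝒰 ⟨B, hB, rfl⟩⟩

lemma key (H : ∀ x y : Tr, c y = c x → (∀ i < (c x).2, (y.A ∈ u x i ↔ x.A ∈ u x i)) → y = x)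
    (a : Om) (hne : ∃ q, Big c a q) (B : Set Tr) (hB : B.Countable) :
    ∃ y : Tr, y.rk = a ∧ ¬ Big c a (c y) ∧ Disjoint y.A B := by
  obtain ⟨s, hs⟩ := (to_countable {q | Big c a q}).exists_eq_range hne
  have hsb : ∀ n, Big c a (s n) := fun n => by
    have : s n ∈ {q | Big c a q} := hs ▸ mem_range_self n
    exact this
  haveI : Nonempty Tr := ⟨Tr.leaf a a⟩
  choose 𝒰 h𝒰 using fun n => exists_ultra c (hsb n)
  choose S hSc hS using fun v : Ultrafilter Tr => exists_supp v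
  let B' : Set Tr := B ∪ ⋃ n, ⋃ i, S ((𝒰 n).bind fun x => u x i)
  have hB' : B'.Countable :=
    hB.union (countable_iUnion fun n => countable_iUnion fun i => hSc _)
  obtain ⟨x, hx, hxr⟩ := exists_seq (fun n x => a < x.rk ∧ c x = s n)
    (fun x y => (∀ i, Disjoint y.A (S (u x i))) ∧ ∀ i < (c y).2, x.A ∉ u y i)
    (fun x => Disjoint x.A B') (by
      intro n l hl
      have h1 := h𝒰 n (B' ∪ ⋃ x ∈ {x | x ∈ l}, ⋃ i, S (u x i))
        (hB'.union ((List.finite_toSet l).countable.biUnion fun x _ =>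
          countable_iUnion fun i => hSc _))
      have h2 : ∀ᶠ y in (𝒰 n : Filter Tr), ∀ x ∈ {x | x ∈ l}, ∀ i ∈ Iio (s n).2, x.A ∉ u y i := by
        rw [eventually_all_finite (List.finite_toSet l)]
        intro x hx
        rw [eventually_all_finite (finite_Iio _)]
        intro i _
        have h3 : x.A ∉ (𝒰 n).bind fun x => u x i :=
          hS _ _ x.countable_A ((hl x hx).mono_right fun z hz =>
            Or.inr (mem_iUnion₂.2 ⟨n, i, hz⟩))
        have h4 : {y | x.A ∈ u y i} ∉ 𝒰 n := h3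
        exact Ultrafilter.compl_mem_iff_notMem.2 h4
      obtain ⟨y, ⟨h5, h6, h7⟩, h8⟩ := Filter.nonempty_of_mem (inter_mem h1 h2)
      refine ⟨y, ⟨h5, h6⟩, h7.mono_right subset_union_left, fun x hx => ⟨fun i => ?_, ?_⟩⟩
      · exact h7.mono_right fun z hz => Or.inr (mem_iUnion₂.2 ⟨x, hx, mem_iUnion.2 ⟨i, hz⟩⟩)
      · intro i hi
        exact h8 x hx i (by rw [← h6]; exact hi))
  obtain ⟨l, hl⟩ := exists_lab (B := B ∪ ⋃ n, ⋃ i, S (u (x n) i))
    (hB.union (countable_iUnion fun n => countable_iUnion fun i => hSc _))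
  have hA : (Tr.node a l x).A = insert (Tr.node a l x) (⋃ n, (x n).A) := by
    show insert _ _ = _
    congr 1
    exact iUnion_congr fun n => by simp [(hx n).1.1]
  have hyB : Tr.node a l x ∉ B ∪ ⋃ n, ⋃ i, S (u (x n) i) := fun h => hl _ h rfl
  refine ⟨Tr.node a l x, rfl, fun hbig => ?_, ?_⟩
  · obtain ⟨n, hn⟩ : c (Tr.node a l x) ∈ range s := hs ▸ hbig
    have hc : c (Tr.node a l x) = c (x n) := by rw [(hx n).1.2, hn]
    have := H (x n) _ hc fun i hi => ?_
    · have h1 := (hx n).1.1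
      rw [← this] at h1
      exact lt_irrefl _ h1
    · rw [hA]
      refine ⟨fun h => ?_, fun h => mem_of_superset h fun z hz => Or.inr (mem_iUnion.2 ⟨n, hz⟩)⟩
      by_contra hcon
      have h1 : insert (Tr.node a l x) (⋃ m ∈ Ioi n, (x m).A) ∉ u (x n) i := by
        refine hS _ _ (Countable.insert _ ((to_countable _).biUnion fun m _ =>
          (x m).countable_A)) ?_
        rw [disjoint_insert_left]
        refine ⟨fun h => hyB (Or.inr (mem_iUnion₂.2 ⟨n, i, h⟩)), ?_⟩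
        simp only [disjoint_iUnion_left]
        exact fun m hm => (hxr n m hm).1 i
      have h2 : (⋃ m ∈ Iio n, (x m).A) ∉ u (x n) i := by
        rw [Ultrafilter.finite_biUnion_mem_iff (finite_Iio n)]
        rintro ⟨m, hm, h⟩
        exact (hxr m n hm).2 i hi h
      have h3 : (insert (Tr.node a l x) (⋃ m ∈ Ioi n, (x m).A) ∪ ⋃ m ∈ Iio n, (x m).A) ∪ (x n).A ∈
          u (x n) i := by
        refine mem_of_superset h ?_
        rintro z (rfl | hz)
        · exact Or.inl (Or.inl (mem_insert _ _))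
        · obtain ⟨m, hm⟩ := mem_iUnion.1 hz
          rcases lt_trichotomy m n with h | rfl | h
          · exact Or.inl (Or.inr (mem_iUnion₂.2 ⟨m, h, hm⟩))
          · exact Or.inr hm
          · exact Or.inl (Or.inl (Or.inr (mem_iUnion₂.2 ⟨m, h, hm⟩)))
      rw [Ultrafilter.union_mem_iff, Ultrafilter.union_mem_iff] at h3
      tauto
  · rw [hA, disjoint_insert_left, disjoint_iUnion_left]
    exact ⟨fun h => hyB (Or.inl h), fun n => (hx n).2.mono_right subset_union_left⟩

theorem no_colouring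
    (H : ∀ x y : Tr, c y = c x → (∀ i < (c x).2, (y.A ∈ u x i ↔ x.A ∈ u x i)) → y = x) :
    False := by
  have hne : ∀ a, ∃ q, Big c a q := by
    intro a
    obtain ⟨b, hb⟩ := exists_gt_Om (countable_singleton a)
    obtain ⟨q, -, hq⟩ := exists_big c a univ fun B hB => by
      obtain ⟨l, hl⟩ := exists_lab hB
      exact ⟨Tr.leaf b l, hb a rfl, mem_univ _,
        disjoint_singleton_left.2 fun h => hl _ h rfl⟩
    exact ⟨q, hq⟩
  have h1 : ∀ q : ℕ × ℕ, ∃ a : Om, (∃ b, ¬ Big c b q) → ¬ Big c a q := by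
    intro q
    by_cases h : ∃ b, ¬ Big c b q
    · obtain ⟨b, hb⟩ := h
      exact ⟨b, fun _ => hb⟩
    · obtain ⟨b, -⟩ := exists_gt_Om countable_empty
      exact ⟨b, fun h' => absurd h' h⟩
  choose f hf using h1
  obtain ⟨a₀, ha₀⟩ := exists_gt_Om (countable_range f)
  obtain ⟨a₁, ha₁⟩ := exists_gt_Om (countable_singleton a₀)
  obtain ⟨q, hq, hq'⟩ := exists_big c a₀ {q | ¬ Big c a₁ q} fun B hB => by
    obtain ⟨y, h1, h2, h3⟩ := key c u H a₁ (hne a₁) B hB
    exact ⟨y, h1 ▸ ha₁ a₀ rfl, h2, h3⟩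
  exact hf q ⟨a₁, hq⟩ (hq'.mono c (ha₀ _ (mem_range_self q)).le)

end main

end Pool.Agent.H903Z.EG
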