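import Mathlib
import Pool.Agent.H903Z.EG.Common

set_option autoImplicit false

open Set Filter Topology Cardinal

namespace Pool.Agent.H903Z.EG

section rho
variable {L : Type} [LinearOrder L] [WellFoundedLT L] (N : L → Set L)

open Classical in
/-- the least point of `B` whose neighbourhood contains `x` -/
noncomputable def rho (B : Set L) (x : L) : L :=
  if h : {y | y ∈ B ∧ x ∈ N y}.Nonempty then (wellFounded_lt (α := L)).min _ h else x

variable {N}

lemma rho_spec {B : Set L} (hB : ∀ x, ∃ y ∈ B, x ∈ N y) (x : L) :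
    rho N B x ∈ B ∧ x ∈ N (rho N B x) ∧ ∀ y ∈ B, x ∈ N y → rho N B x ≤ y := by
  have h : {y | y ∈ B ∧ x ∈ N y}.Nonempty := hB x
  unfold rho
  rw [dif_pos h]
  have h1 := (wellFounded_lt (α := L)).min_mem _ h
  exact ⟨h1.1, h1.2, fun y hy hxy => not_lt.1 ((wellFounded_lt (α := L)).not_lt_min _
    (show y ∈ {y | y ∈ B ∧ x ∈ N y} from ⟨hy, hxy⟩))⟩

lemma rho_anti {B B' : Set L} (hB : ∀ x, ∃ y ∈ B, x ∈ N y) (h : B ⊆ B') (x : L) :
    rho N B' x ≤ rho N B x :=
  (rho_spec (fun x => (hB x).imp fun _ hy => ⟨h hy.1, hy.2⟩) x).2.2 _ (h (rho_spec hB x).1)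
    (rho_spec hB x).2.1

lemma rho_eq {B B' : Set L} (hB : ∀ x, ∃ y ∈ B, x ∈ N y) (h : B ⊆ B') {x : L}
    (hx : rho N B' x ∈ B) : rho N B x = rho N B' x :=
  le_antisymm ((rho_spec hB x).2.2 _ hx
    (rho_spec (fun x => (hB x).imp fun _ hy => ⟨h hy.1, hy.2⟩) x).2.1) (rho_anti hB h x)

lemma rho_self {B : Set L} (hB : ∀ x, ∃ y ∈ B, x ∈ N y) (hN : ∀ y, y ∈ N y)
    (hN' : ∀ y, N y ⊆ Iic y) {x : L} (hx : x ∈ B) : rho N B x = x :=
  le_antisymm ((rho_spec hB x).2.2 _ hx (hN x)) (hN' _ (rho_spec hB x).2.1)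

end rho

section ops
variable {L : Type} [TopologicalSpace L] [LindelofSpace L] [LinearOrder L] [WellFoundedLT L]
  {K : Type} [TopologicalSpace K] [CompactSpace K]

/-- Sets closed under suitable countably valued operations give retractions. -/
theorem exists_ops (N : L → Set L) (hN1 : ∀ y, N y ∈ 𝓝 y) (hN2 : ∀ y, IsClosed (N y))
    (hN3 : ∀ y, N y ⊆ Iic y) (ev : K → L → ℝ) (hev : Continuous ev) (hc : ∀ k, Continuous (ev k)) :
    ∃ g : Finset L → Set L, (∀ F, (g F).Countable) ∧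
      ∀ B : Set L, (∀ F : Finset L, (F : Set L) ⊆ B → g F ⊆ B) →
        (∀ x, ∃ y ∈ B, x ∈ N y) ∧ ∀ k, ∃ k', ev k' = ev k ∘ rho N B := by
  classical
  obtain ⟨Z₀, hZ₀c, -, hZ₀⟩ := isLindelof_univ.elim_nhds_subcover N fun x _ => hN1 x
  have hZ : ∀ (d : K) (y : L), ∃ Z : Set L, Z.Countable ∧
      ∀ x ∈ N y, ev d x ≠ ev d y → ∃ z ∈ Z, z < y ∧ x ∈ N z := by
    intro d y
    have h1 : IsLindelof (⋃ n : ℕ, N y ∩ {x | 1 / ((n : ℝ) + 1) ≤ |ev d x - ev d y|}) :=
      isLindelof_iUnion fun n => ((hN2 y).inter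
        (isClosed_le continuous_const ((hc d).sub continuous_const).abs)).isLindelof
    obtain ⟨Z, hZc, hZ1, hZ2⟩ := h1.elim_nhds_subcover N fun x _ => hN1 x
    refine ⟨Z, hZc, fun x hx hne => ?_⟩
    obtain ⟨n, hn⟩ := exists_nat_one_div_lt (abs_pos.2 (sub_ne_zero.2 hne))
    obtain ⟨z, hz, hxz⟩ := mem_iUnion₂.1 (hZ2 (mem_iUnion.2 ⟨n, hx, hn.le⟩))
    obtain ⟨m, hm1, hm2⟩ := mem_iUnion.1 (hZ1 z hz)
    refine ⟨z, hz, lt_of_le_of_ne (hN3 y hm1) ?_, hxz⟩
    rintro rfl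
    have h2 : (0 : ℝ) < 1 / ((m : ℝ) + 1) := by positivity
    have h3 : 1 / ((m : ℝ) + 1) ≤ |ev d z - ev d z| := hm2
    simp at h3
    linarith
  choose Z hZc hZ using hZ
  have hD : ∀ F : Finset L, ∃ D : Set K, D.Countable ∧ ∀ (U : L → Set ℝ) (k : K),
      (∀ x ∈ F, IsOpen (U x) ∧ ev k x ∈ U x) → ∃ d ∈ D, ∀ x ∈ F, ev d x ∈ U x := by
    intro F
    let π : K → (F → ℝ) := fun k x => ev k x
    obtain ⟨s, hsc, hsd⟩ := TopologicalSpace.exists_countable_dense (range π)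
    refine ⟨(fun p : range π => p.2.choose) '' s, hsc.image _, fun U k hU => ?_⟩
    have hopen : IsOpen {p : range π | ∀ x : F, p.1 x ∈ U x} := by
      rw [setOf_forall]
      exact isOpen_iInter_of_finite fun x =>
        (hU x x.2).1.preimage ((continuous_apply x).comp continuous_subtype_val)
    obtain ⟨p, hp1, hp2⟩ := hsd.inter_open_nonempty _ hopen
      ⟨⟨π k, mem_range_self k⟩, fun x => (hU x x.2).2⟩
    refine ⟨_, ⟨p, hp2, rfl⟩, fun x hx => ?_⟩
    have := congrFun p.2.choose_spec ⟨x, hx⟩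
    simp only [π] at this
    rw [this]
    exact hp1 ⟨x, hx⟩
  choose D hDc hD using hD
  refine ⟨fun F => Z₀ ∪ ⋃ F' ∈ F.powerset, ⋃ d ∈ D F', ⋃ y ∈ F, Z d y, fun F => hZ₀c.union
    ((Finset.countable_toSet _).biUnion fun F' _ => (hDc F').biUnion fun d _ =>
      (Finset.countable_toSet _).biUnion fun y _ => hZc d y), fun B hB => ?_⟩
  have hcov : ∀ x, ∃ y ∈ B, x ∈ N y := by
    intro x
    obtain ⟨y, hy, hxy⟩ := mem_iUnion₂.1 (hZ₀ (mem_univ x))
    exact ⟨y, hB ∅ (by simp) (Or.inl hy), hxy⟩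
  refine ⟨hcov, fun k => ?_⟩
  have hself : ∀ x ∈ B, rho N B x = x := fun x hx =>
    rho_self hcov (fun y => mem_of_mem_nhds (hN1 y)) hN3 hx
  have hDS : ∀ F : Finset L, (F : Set L) ⊆ B → ∀ d ∈ D F, ∀ x, ev d x = ev d (rho N B x) := by
    intro F hF d hd x
    by_contra hne
    obtain ⟨h1, h2, h3⟩ := rho_spec hcov x
    obtain ⟨z, hz, hzy, hxz⟩ := hZ d _ x h2 hne
    have hzB : z ∈ B := by
      refine hB (insert (rho N B x) F) (by rw [Finset.coe_insert]; exact insert_subset h1 hF)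
        (Or.inr ?_)
      simp only [mem_iUnion]
      exact ⟨F, Finset.mem_powerset.2 (Finset.subset_insert _ _), d, hd, _,
        Finset.mem_insert_self _ _, hz⟩
    exact absurd (h3 z hzB hxz) (not_le.2 hzy)
  have hcl : IsClosed (range ev) := (isCompact_range hev).isClosed
  suffices h : ev k ∘ rho N B ∈ closure (range ev) by
    rw [hcl.closure_eq] at h
    exact h
  rw [mem_closure_iff]
  intro V hV hkV
  obtain ⟨I, u, hu, hIV⟩ := isOpen_pi_iff.1 hV _ hkV
  obtain ⟨d, hd, hdU⟩ := hD (I.image (rho N B)) (fun y => ⋂ x ∈ I.filter (rho N B · = y), u x) k (by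
    intro y _
    refine ⟨isOpen_biInter_finset fun x hx => (hu x (Finset.mem_filter.1 hx).1).1,
      mem_iInter₂.2 fun x hx => ?_⟩
    rw [← (Finset.mem_filter.1 hx).2]
    exact (hu x (Finset.mem_filter.1 hx).1).2)
  refine ⟨ev d, hIV fun x hx => ?_, mem_range_self d⟩
  rw [hDS _ (by
    intro y hy
    simp only [Finset.coe_image, mem_image] at hy
    obtain ⟨x, -, rfl⟩ := hy
    exact (rho_spec hcov x).1) d hd x]
  exact mem_iInter₂.1 (hdU _ (Finset.mem_image_of_mem _ hx)) x (Finset.mem_filter.2 ⟨hx, rfl⟩)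

end ops

section sld
variable {L : Type} {K : Type} [TopologicalSpace K] [CompactSpace K] (ev : K → L → ℝ)

/-- neighbourhood filter for the topology of pointwise convergence -/
def pw (φ : C(K, ℝ)) : Filter C(K, ℝ) := comap (fun ψ : C(K, ℝ) => (ψ : K → ℝ)) (𝓝 (φ : K → ℝ))

/-- functions that depend only on the coordinates in `A` -/
def CA (A : Set L) : Set C(K, ℝ) := {φ | ∀ k k', (∀ x ∈ A, ev k x = ev k' x) → φ k = φ k'}

def SLD (A : Set L) : Prop := ∀ ε > (0 : ℝ), ∃ c : C(K, ℝ) → ℕ, ∀ φ ∈ CA ev A,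
  ∀ᶠ ψ in pw φ, ψ ∈ CA ev A → c ψ = c φ → dist ψ φ ≤ ε

lemma exists_finset_unif (hev : IsEmbedding ev) (φ : C(K, ℝ)) {η : ℝ} (hη : 0 < η) :
    ∃ F : Finset L, ∀ k k', (∀ x ∈ F, ev k x = ev k' x) → dist (φ k) (φ k') ≤ η := by
  have hZ : IsCompact {p : K × K | η ≤ dist (φ p.1) (φ p.2)} :=
    (isClosed_le continuous_const (by fun_prop)).isCompact
  obtain ⟨F, hF⟩ := hZ.elim_finite_subcover (fun x : L => {p : K × K | ev p.1 x ≠ ev p.2 x})
    (fun x => isOpen_ne_fun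
      ((continuous_apply x).comp (hev.continuous.comp continuous_fst))
      ((continuous_apply x).comp (hev.continuous.comp continuous_snd))) (by
      intro p hp
      by_contra h
      simp only [mem_iUnion, mem_setOf_eq, not_exists, not_not] at h
      have : p.1 = p.2 := hev.injective (funext h)
      simp only [mem_setOf_eq, this, dist_self] at hp
      linarith)
  refine ⟨F, fun k k' h => ?_⟩
  by_contra hlt
  obtain ⟨x, hx, hne⟩ := mem_iUnion₂.1 (hF (show (k, k') ∈ _ from (not_le.1 hlt).le))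
  exact hne (h x hx)

lemma sld_countable (hev : Continuous ev) (A : Set L) (hA : A.Countable) : SLD ev A := by
  intro ε hε
  haveI := hA.to_subtype
  let π : K → (A → ℝ) := fun k x => ev k x
  have hπ : Continuous π := continuous_pi fun x => (continuous_apply x.1).comp hev
  haveI : CompactSpace (range π) := isCompact_iff_compactSpace.1 (isCompact_range hπ)
  let π' : C(K, range π) := ⟨rangeFactorization π, hπ.rangeFactorization⟩
  have hq : IsQuotientMap π' := π'.continuous.isClosedMap.isQuotientMap π'.continuous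
    rangeFactorization_surjective
  have hsep : TopologicalSpace.IsSeparable (range fun θ : C(range π, ℝ) => θ.comp π') :=
    TopologicalSpace.isSeparable_range (ContinuousMap.continuous_precomp π')
  obtain ⟨s, hsc, hs⟩ := hsep
  obtain ⟨j, hj⟩ := countable_iff_exists_injOn.1 hsc
  have h1 : ∀ φ : C(K, ℝ), ∃ θ, φ ∈ CA ev A → θ ∈ s ∧ dist φ θ < ε / 2 := by
    intro φ
    by_cases hφ : φ ∈ CA ev A
    · have h2 : ∀ k, φ ((π' k).2.choose) = φ k := fun k =>
        hφ _ _ fun x hx => congrFun (π' k).2.choose_spec ⟨x, hx⟩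
      have h3 : φ ∈ closure s := hs ⟨⟨fun p => φ p.2.choose, hq.continuous_iff.2 (by
        convert φ.continuous using 1
        exact funext h2)⟩, ContinuousMap.ext h2⟩
      obtain ⟨θ, h4, h5⟩ := Metric.mem_closure_iff.1 h3 _ (half_pos hε)
      exact ⟨θ, fun _ => ⟨h4, h5⟩⟩
    · exact ⟨φ, fun h => absurd h hφ⟩
  choose θ hθ using h1
  refine ⟨fun φ => j (θ φ), fun φ hφ => Eventually.of_forall fun ψ hψ h => ?_⟩
  have h2 := hj (hθ ψ hψ).1 (hθ φ hφ).1 h
  have h3 := dist_triangle_right ψ φ (θ φ)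
  have h4 := (hθ ψ hψ).2
  rw [h2] at h4
  linarith [(hθ φ hφ).2]

omit [CompactSpace K] in
lemma tendsto_comp_pw (r : C(K, K)) (φ : C(K, ℝ)) :
    Tendsto (fun ψ : C(K, ℝ) => ψ.comp r) (pw φ) (pw (φ.comp r)) := by
  refine tendsto_comap_iff.2 (tendsto_pi_nhds.2 fun k => ?_)
  exact ((continuous_apply (r k)).tendsto _).comp tendsto_comap

lemma eventually_lt_dist (r r' : C(K, K)) (φ : C(K, ℝ)) {η : ℝ} (hη : 0 ≤ η)
    (h : η < dist (φ.comp r) (φ.comp r')) : ∀ᶠ ψ in pw φ, η < dist (ψ.comp r) (ψ.comp r') := by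
  obtain ⟨k, hk⟩ : ∃ k, η < dist (φ (r k)) (φ (r' k)) := by
    by_contra hcon
    push Not at hcon
    exact absurd ((ContinuousMap.dist_le hη).2 hcon) (not_le.2 h)
  have h1 : ∀ k, Tendsto (fun ψ : C(K, ℝ) => ψ k) (pw φ) (𝓝 (φ k)) := fun k =>
    ((continuous_apply k).tendsto _).comp tendsto_comap
  filter_upwards [((h1 (r k)).dist (h1 (r' k))).eventually_const_lt hk] with ψ hψ
  exact lt_of_lt_of_le hψ (ContinuousMap.dist_apply_le_dist (f := ψ.comp r) (g := ψ.comp r') k)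

lemma dist_comp_le (r : C(K, K)) (φ ψ : C(K, ℝ)) : dist (φ.comp r) (ψ.comp r) ≤ dist φ ψ :=
  (ContinuousMap.dist_le dist_nonneg).2 fun k => ContinuousMap.dist_apply_le_dist (r k)

end sld

theorem sld_all {L : Type} [TopologicalSpace L] [LindelofSpace L] [RegularSpace L] [LinearOrder L]
    [WellFoundedLT L] (hI : ∀ x : L, Iic x ∈ 𝓝 x) {K : Type} [TopologicalSpace K] [CompactSpace K]
    (ev : K → L → ℝ) (hev : IsEmbedding ev) (hc : ∀ k, Continuous (ev k)) (A : Set L) :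
    SLD ev A := by
  classical
  choose N hN1 hN2 hN3 using fun x : L => exists_mem_nhds_isClosed_subset (hI x)
  obtain ⟨g, hgc, hg⟩ := exists_ops N hN1 hN2 hN3 ev hev.continuous hc
  induction A using card_induction with
  | h0 A hA => exact sld_countable ev hev.continuous A hA
  | hs ι e IH =>
  have hB₀ : (cl g ∅).Countable :=
    le_aleph0_iff_set_countable.1 (mk_cl_le g hgc ∅ le_rfl (by simp))
  obtain ⟨Bp, hmono, he, hB₀p, hcl, hcard⟩ :=
    exists_chain e (cl g ∅) hB₀ (fun _ => g) (fun _ => hgc)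
  let BB : Set ι → Set L := fun S => cl g ∅ ∪ ⋃ j ∈ S, Bp j
  have hBBmono : ∀ {S S' : Set ι}, (∀ i ∈ S, ∃ j ∈ S', i ≤ j) → BB S ⊆ BB S' := by
    intro S S' h x hx
    rcases hx with hx | hx
    · exact Or.inl hx
    · obtain ⟨i, hi, hxi⟩ := mem_iUnion₂.1 hx
      obtain ⟨j, hj, hij⟩ := h i hi
      exact Or.inr (mem_iUnion₂.2 ⟨j, hj, hmono hij hxi⟩)
  have hBBfin : ∀ (S : Set ι) (F : Finset L), (F : Set L) ⊆ BB S →
      (F : Set L) ⊆ cl g ∅ ∨ ∃ j ∈ S, (F : Set L) ⊆ Bp j := by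
    intro S F hF
    rcases S.eq_empty_or_nonempty with rfl | ⟨j₀, hj₀⟩
    · left
      simpa [BB] using hF
    · right
      refine finset_subset_iUnion j₀ hmono hj₀ F (hF.trans ?_)
      exact union_subset ((hB₀p j₀).trans (subset_biUnion_of_mem (u := Bp) hj₀)) Subset.rfl
  have hBB : ∀ (S : Set ι) (F : Finset L), (F : Set L) ⊆ BB S → g F ⊆ BB S := by
    intro S F hF
    rcases hBBfin S F hF with h | ⟨j, hj, h⟩
    · exact (cl_closed g ∅ F h).trans subset_union_left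
    · exact (hcl j F h).trans ((subset_biUnion_of_mem (u := Bp) hj).trans subset_union_right)
  have hcov : ∀ S x, ∃ y ∈ BB S, x ∈ N y := fun S => (hg _ (hBB S)).1
  choose r₀ hr₀ using fun S => (hg _ (hBB S)).2
  let r : Set ι → C(K, K) := fun S => ⟨r₀ S, hev.isInducing.continuous_iff.2 (by
    have : ev ∘ r₀ S = fun k => ev k ∘ rho N (BB S) := funext (hr₀ S)
    rw [this]
    exact continuous_pi fun x => (continuous_apply _).comp hev.continuous)⟩
  have hr : ∀ S k x, ev (r S k) x = ev k (rho N (BB S) x) := fun S k x => congrFun (hr₀ S k) x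
  have hself : ∀ S, ∀ x ∈ BB S, rho N (BB S) x = x := fun S x hx =>
    rho_self (hcov S) (fun y => mem_of_mem_nhds (hN1 y)) hN3 hx
  have F1 : ∀ {S S' : Set ι}, BB S ⊆ BB S' → ∀ φ : C(K, ℝ),
      dist φ (φ.comp (r S')) ≤ 2 * dist φ (φ.comp (r S)) := by
    intro S S' h φ
    have h1 : (φ.comp (r S)).comp (r S') = φ.comp (r S) := by
      ext k
      have : r S (r S' k) = r S k := hev.injective (funext fun x => by
        rw [hr, hr, hr, hself S' _ (h (rho_spec (hcov S) x).1)])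
      simp [this]
    have h2 := dist_comp_le (r S') (φ.comp (r S)) φ
    rw [h1, dist_comm (φ.comp (r S)) φ] at h2
    have h3 := dist_triangle φ (φ.comp (r S)) (φ.comp (r S'))
    linarith
  have F2 : ∀ φ ∈ CA ev (range e), φ.comp (r univ) = φ := by
    intro φ hφ
    ext k
    refine hφ _ _ ?_
    rintro _ ⟨i, rfl⟩
    rw [hr, hself univ _ (Or.inr (mem_iUnion₂.2 ⟨i, mem_univ _, he i⟩))]
  have F3 : ∀ S (φ : C(K, ℝ)), φ.comp (r S) ∈ CA ev (BB S) := by
    intro S φ k k' h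
    have : r S k = r S k' := hev.injective (funext fun x => by
      rw [hr, hr, h _ (rho_spec (hcov S) x).1])
    simp [this]
  have F4 : ∀ (φ : C(K, ℝ)) (η : ℝ), 0 < η → ∃ F : Finset L, ∀ S S',
      (∀ x ∈ F, rho N (BB S) x = rho N (BB S') x) → dist (φ.comp (r S)) (φ.comp (r S')) ≤ η := by
    intro φ η hη
    obtain ⟨F, hF⟩ := exists_finset_unif ev hev φ hη
    refine ⟨F, fun S S' h => (ContinuousMap.dist_le hη.le).2 fun k => hF _ _ fun x hx => ?_⟩
    rw [hr, hr, h x hx]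
  have hpm : ∀ i, BB (Iio i) ⊆ BB {i} := fun i => hBBmono fun j hj => ⟨i, rfl, le_of_lt hj⟩
  have F5 : ∀ x, {i | rho N (BB {i}) x ≠ rho N (BB (Iio i)) x}.Finite := by
    intro x
    let T := {i | rho N (BB {i}) x ≠ rho N (BB (Iio i)) x}
    have hanti : StrictAnti fun i : T => rho N (BB {i.1}) x := by
      intro i j hij
      refine lt_of_lt_of_le (lt_of_le_of_ne (rho_anti (hcov _) (hpm j.1) x) j.2) ?_
      exact rho_anti (hcov _) (hBBmono fun a ha => ⟨i.1, hij, le_of_eq ha⟩) x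
    haveI : WellFoundedGT T := hanti.wellFoundedGT
    exact Finite.of_wellFoundedLT_wellFoundedGT T
  let J : ℕ → C(K, ℝ) → Set ι := fun m φ =>
    {i | 1 / ((m : ℝ) + 1) < dist (φ.comp (r {i})) (φ.comp (r (Iio i)))}
  have hJ : ∀ m φ, (J m φ).Finite := by
    intro m φ
    obtain ⟨F, hF⟩ := F4 φ (1 / ((m : ℝ) + 1)) (by positivity)
    refine (F.finite_toSet.biUnion fun x _ => F5 x).subset fun i hi => ?_
    by_contra hcon
    simp only [mem_iUnion, mem_setOf_eq, not_exists, not_not] at hcon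
    exact absurd (hF _ _ hcon) (not_le.2 hi)
  intro ε hε
  have hε5 : 0 < ε / 5 := by positivity
  have approach : ∀ (φ : C(K, ℝ)) (S : Set ι), dist φ (φ.comp (r S)) < ε / 5 →
      dist φ (φ.comp (r ∅)) < ε / 5 ∨ ∃ i ∈ S, dist φ (φ.comp (r {i})) < ε / 5 := by
    intro φ S h
    obtain ⟨F, hF⟩ := F4 φ ((ε / 5 - dist φ (φ.comp (r S))) / 2) (by linarith)
    have key : ∀ S', BB S' ⊆ BB S → (F.image (rho N (BB S)) : Set L) ⊆ BB S' →
        dist φ (φ.comp (r S')) < ε / 5 := by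
      intro S' h1 h2
      have h3 := hF S S' fun x hx =>
        (rho_eq (hcov _) h1 (h2 (Finset.mem_coe.2 (Finset.mem_image_of_mem _ hx)))).symm
      have h4 := dist_triangle φ (φ.comp (r S)) (φ.comp (r S'))
      linarith
    rcases hBBfin S (F.image (rho N (BB S))) (by
      intro y hy
      simp only [Finset.coe_image, mem_image] at hy
      obtain ⟨x, -, rfl⟩ := hy
      exact (rho_spec (hcov S) x).1) with h1 | ⟨j, hj, h1⟩
    · exact Or.inl (key ∅ (hBBmono fun _ h => h.elim) (h1.trans subset_union_left))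
    · refine Or.inr ⟨j, hj, key {j} (hBBmono fun a ha => ⟨j, hj, le_of_eq ha⟩) (h1.trans ?_)⟩
      exact fun y hy => Or.inr (mem_iUnion₂.2 ⟨j, rfl, hy⟩)
  have pin : ∀ φ : C(K, ℝ), ∃ m : ℕ, φ ∈ CA ev (range e) →
      dist φ (φ.comp (r (J m φ))) ≤ 2 * (ε / 5) := by
    intro φ
    by_cases hφ : φ ∈ CA ev (range e)
    swap
    · exact ⟨0, fun h => absurd h hφ⟩
    by_cases h0 : dist φ (φ.comp (r ∅)) < ε / 5
    · refine ⟨0, fun _ => (F1 (S := ∅) (hBBmono fun _ h => h.elim) φ).trans (by linarith)⟩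
    obtain ⟨i, -, hi⟩ := (approach φ univ (by rw [F2 φ hφ]; simpa using hε5)).resolve_left h0
    obtain ⟨i₀, hi₀, hmin⟩ := (wellFounded_lt (α := ι)).has_min
      {i | dist φ (φ.comp (r {i})) < ε / 5} ⟨i, hi⟩
    have hne : φ.comp (r {i₀}) ≠ φ.comp (r (Iio i₀)) := by
      intro h
      obtain ⟨j, hj, hj'⟩ := (approach φ (Iio i₀) (h ▸ hi₀)).resolve_left h0
      exact hmin j hj' hj
    obtain ⟨m, hm⟩ := exists_nat_one_div_lt (dist_pos.2 hne)
    refine ⟨m, fun _ => (F1 (S := {i₀}) (hBBmono fun a ha => ⟨i₀, hm, le_of_eq ha⟩) φ).trans ?_⟩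
    have : dist φ (φ.comp (r {i₀})) < ε / 5 := hi₀
    linarith
  choose mm hmm using pin
  have hcol : ∀ S : Set ι, ∃ c : C(K, ℝ) → ℕ, S.Finite → ∀ φ ∈ CA ev (BB S),
      ∀ᶠ ψ in pw φ, ψ ∈ CA ev (BB S) → c ψ = c φ → dist ψ φ ≤ ε / 5 := by
    intro S
    by_cases hS : S.Finite
    swap
    · exact ⟨fun _ => 0, fun h => absurd h hS⟩
    have : SLD ev (BB S) := by
      rcases S.eq_empty_or_nonempty with rfl | hne
      · exact sld_countable ev hev.continuous _ (by simpa [BB] using hB₀)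
      · obtain ⟨i, hi, hmax⟩ := exists_max_image S id hS hne
        refine IH i _ ((mk_le_mk_of_subset ?_).trans (hcard i))
        exact union_subset (hB₀p i) (iUnion₂_subset fun j hj => hmono (hmax j hj))
    obtain ⟨c, hc⟩ := this _ hε5
    exact ⟨c, fun _ => hc⟩
  choose col hcol using hcol
  refine ⟨fun φ => Nat.pair (mm φ) (Nat.pair (J (mm φ) φ).ncard
    (col (J (mm φ) φ) (φ.comp (r (J (mm φ) φ))))), fun φ hφ => ?_⟩
  have h1 : ∀ᶠ ψ in pw φ, ∀ i ∈ J (mm φ) φ, i ∈ J (mm φ) ψ := by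
    rw [eventually_all_finite (hJ _ _)]
    exact fun i hi => eventually_lt_dist _ _ φ (by positivity) hi
  filter_upwards [h1, (tendsto_comp_pw (r (J (mm φ) φ)) φ).eventually
    (hcol _ (hJ _ _) _ (F3 _ φ))] with ψ h1 h2 hψ hcψ
  simp only [Nat.pair_eq_pair] at hcψ
  obtain ⟨e1, e2, e3⟩ := hcψ
  have h3 := hmm ψ hψ
  rw [e1] at e2 e3 h3
  have h4 : J (mm φ) φ = J (mm φ) ψ := eq_of_subset_of_ncard_le h1 e2.le (hJ _ _)
  rw [← h4] at e3 h3
  have h5 := h2 (F3 _ ψ) e3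
  have h6 := hmm φ hφ
  have h7 := dist_triangle4 ψ (ψ.comp (r (J (mm φ) φ))) (φ.comp (r (J (mm φ) φ))) φ
  rw [dist_comm (φ.comp _) φ] at h7
  linarith

theorem sld_univ {L : Type} [TopologicalSpace L] [LindelofSpace L] [RegularSpace L]
    (hsc : ∀ S : Set L, S.Nonempty → ∃ x ∈ S, ∃ U : Set L, IsOpen U ∧ U ∩ S = {x})
    {K : Type} [TopologicalSpace K] [CompactSpace K]
    (ev : K → L → ℝ) (hev : IsEmbedding ev) (hc : ∀ k, Continuous (ev k)) :
    ∃ c : ℕ → C(K, ℝ) → ℕ, ∀ (m : ℕ) (φ : C(K, ℝ)),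
      ∀ᶠ ψ in pw φ, c m ψ = c m φ → dist ψ φ ≤ 1 / ((m : ℝ) + 1) := by
  obtain ⟨_, _, hI⟩ := exists_sepOrder hsc
  have h := sld_all hI ev hev hc univ
  have hCA : ∀ φ : C(K, ℝ), φ ∈ CA ev univ := fun φ k k' h => by
    rw [hev.injective (funext fun x => h x (mem_univ x))]
  choose c hc using fun m : ℕ => h (1 / ((m : ℝ) + 1)) (by positivity)
  exact ⟨c, fun m φ => (hc m φ (hCA φ)).mono fun ψ h => h (hCA ψ)⟩

end Pool.Agent.H903Z.EG
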